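import Pool.Agent.Helper37.DG.Stmts2
import Pool.Agent.Helper15.HallDiv

/-!
The bound from the divisor function, for the form `x ^ 2 + D * y ^ 2`.
-/

namespace Pool.Agent.Helper37.DG

open Finset
open scoped Classical

theorem trivd_tau (D : ℕ) (m : ℕ) (hm : 1 ≤ m) :
    ∏ p ∈ m.primeFactors.filter (fun p => Rel D p ∧ p ∉ (∅ : Finset ℕ)),
      (m.factorization p + 1) ≤ tau m := by
  unfold tau
  rw [Nat.card_divisors (by omega)]
  refine Finset.prod_le_prod_of_subset_of_one_le' (Finset.filter_subset _ _) ?_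
  intro p _ _
  omega

theorem trivd_nm_pos (D : ℕ) (hD : 1 ≤ D) (v : ℤ × ℤ) (hv : v ≠ 0) : 1 ≤ nmD D v := by
  unfold nmD
  have hD' : (1 : ℤ) ≤ (D : ℤ) := by exact_mod_cast hD
  have h : 0 < v.1 ^ 2 + (D : ℤ) * v.2 ^ 2 := by
    by_contra h
    have h1 := sq_nonneg v.1
    have h2 := sq_nonneg v.2
    have h5 : v.2 ^ 2 ≤ (D : ℤ) * v.2 ^ 2 := by nlinarith
    have h3 : v.1 ^ 2 = 0 := by omega
    have h4 : v.2 ^ 2 = 0 := by omega
    apply hv
    ext
    · exact pow_eq_zero_iff two_ne_zero |>.1 h3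
    · exact pow_eq_zero_iff two_ne_zero |>.1 h4
  omega

theorem trivd_nm_le (D N M : ℕ) (hMN : M ≤ N) (a b : ℤ × ℤ) (ha : a ∈ box N M) (hb : b ∈ box N M) :
    nmD D (a - b) ≤ (D + 1) * N ^ 2 := by
  simp only [box, Finset.mem_product, Finset.mem_Ico] at ha hb
  unfold nmD
  have hM : (M : ℤ) ≤ N := by exact_mod_cast hMN
  have h1 : (a - b).1 ^ 2 ≤ (N : ℤ) ^ 2 := by
    rw [Prod.fst_sub]
    apply sq_le_sq'
    · omega
    · omega
  have h2 : (a - b).2 ^ 2 ≤ (N : ℤ) ^ 2 := by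
    rw [Prod.snd_sub]
    apply sq_le_sq'
    · omega
    · omega
  have h3 := sq_nonneg (a - b).1
  have hDn : (0 : ℤ) ≤ (D : ℤ) := Int.natCast_nonneg D
  have h4 : 0 ≤ (D : ℤ) * (a - b).2 ^ 2 := mul_nonneg hDn (sq_nonneg _)
  have h6 : (D : ℤ) * (a - b).2 ^ 2 ≤ (D : ℤ) * (N : ℤ) ^ 2 := mul_le_mul_of_nonneg_left h2 hDn
  have h5 : (((a - b).1 ^ 2 + (D : ℤ) * (a - b).2 ^ 2).natAbs : ℤ) =
      (a - b).1 ^ 2 + (D : ℤ) * (a - b).2 ^ 2 :=
    Int.natAbs_of_nonneg (by omega)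
  zify
  rw [← Int.natCast_natAbs, h5]
  linarith

theorem st_TRIVD (h1 : ST_MULD) : ST_TRIVD := by
  intro D hD1 η hη
  obtain ⟨C, hC1, hC⟩ := Pool.Agent.Helper15.Hall.card_divisors_le_uniform (η / 2) (by positivity)
  obtain ⟨CD, hCD1, hCD⟩ := h1 D hD1
  have hCDr : (0 : ℝ) < CD := by exact_mod_cast hCD1
  have hDr : (0 : ℝ) < (D : ℝ) + 1 := by positivity
  refine ⟨2 * CD * C * ((D : ℝ) + 1) ^ (η / 2), by positivity, ?_⟩
  intro N M P hM hMN hP hcard
  obtain ⟨a, ha⟩ : P.Nonempty := Finset.card_pos.1 (by omega)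
  have hN1 : 1 ≤ N := hM.trans hMN
  have hNr : (0 : ℝ) < N := by exact_mod_cast hN1
  let E : Finset ℕ := P.offDiag.image (fun a => nmD D (a.1 - a.2))
  have hmap : ∀ b ∈ P.erase a, nmD D (a - b) ∈ E := by
    intro b hb
    rw [Finset.mem_erase] at hb
    refine Finset.mem_image.2 ⟨(a, b), ?_, rfl⟩
    rw [Finset.mem_offDiag]
    exact ⟨ha, hb.2, fun h => hb.1 h.symm⟩
  have hcount := Finset.card_eq_sum_card_fiberwise hmap
  have hfib : ∀ m ∈ E, (((P.erase a).filter (fun b => nmD D (a - b) = m)).card : ℝ) ≤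
      CD * (C * (((D : ℝ) + 1) * (N : ℝ) ^ 2) ^ (η / 2)) := by
    intro m hm
    obtain ⟨⟨c, d⟩, hcd, hcm⟩ := Finset.mem_image.1 hm
    rw [Finset.mem_offDiag] at hcd
    have hm1 : 1 ≤ m := by
      rw [← hcm]
      exact trivd_nm_pos D hD1 _ (sub_ne_zero.2 hcd.2.2)
    have hm2 : m ≤ (D + 1) * N ^ 2 := by
      rw [← hcm]
      exact trivd_nm_le D N M hMN c d (hP hcd.1) (hP hcd.2.1)
    have h2 := hCD (fun _ => 0) ∅ m (by simp) hm1
      (((P.erase a).filter (fun b => nmD D (a - b) = m)).image (fun b => a - b)) (by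
        intro v hv
        obtain ⟨b, hb, rfl⟩ := Finset.mem_image.1 hv
        rw [Finset.mem_filter] at hb
        exact ⟨hb.2, fun p hp => absurd hp (Finset.notMem_empty p)⟩)
    rw [Finset.card_image_of_injective _ (fun x y h => by simpa using h)] at h2
    have h3 := trivd_tau D m hm1
    have hpos : 1 ≤ (D + 1) * N ^ 2 := Nat.one_le_iff_ne_zero.2 (by positivity)
    have h4 := hC ((D + 1) * N ^ 2) m (by omega) hm2
    push_cast at h4
    have h5 : ((((P.erase a).filter (fun b => nmD D (a - b) = m)).card : ℕ) : ℝ) ≤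
        ((CD * tau m : ℕ) : ℝ) := by
      exact_mod_cast h2.trans (Nat.mul_le_mul_left CD h3)
    refine h5.trans ?_
    push_cast
    have h6 : (tau m : ℝ) ≤ C * (((D : ℝ) + 1) * (N : ℝ) ^ 2) ^ (η / 2) := h4
    exact mul_le_mul_of_nonneg_left h6 hCDr.le
  have h7 : ((P.erase a).card : ℝ) ≤
      E.card * (CD * (C * (((D : ℝ) + 1) * (N : ℝ) ^ 2) ^ (η / 2))) := by
    rw [hcount]
    push_cast
    refine (Finset.sum_le_sum hfib).trans ?_
    rw [Finset.sum_const, nsmul_eq_mul]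
  have h8 : (P.card : ℝ) ≤ 2 * (P.erase a).card := by
    rw [Finset.card_erase_of_mem ha]
    have h9 : P.card ≤ 2 * (P.card - 1) := by omega
    exact_mod_cast h9
  have h9 : (((D : ℝ) + 1) * (N : ℝ) ^ 2) ^ (η / 2) = ((D : ℝ) + 1) ^ (η / 2) * (N : ℝ) ^ η := by
    rw [Real.mul_rpow hDr.le (by positivity), ← Real.rpow_natCast (N : ℝ) 2,
      ← Real.rpow_mul hNr.le]
    congr 2
    push_cast
    ring
  rw [h9] at h7
  have hD : (E.card : ℝ) = (dcD D P : ℝ) := rfl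
  rw [hD] at h7
  calc (P.card : ℝ) ≤ 2 * (P.erase a).card := h8
    _ ≤ 2 * (dcD D P * (CD * (C * (((D : ℝ) + 1) ^ (η / 2) * (N : ℝ) ^ η)))) := by linarith
    _ = 2 * CD * C * ((D : ℝ) + 1) ^ (η / 2) * (N : ℝ) ^ η * dcD D P := by ring

end Pool.Agent.Helper37.DG
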